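import Pool.Agent.W558.WD.Stms
import Pool.Agent.W363.RS.Ord

set_option autoImplicit false

/-!
WILD-LIM: there is no infinite sequence of points on the last component only.
-/

universe u

open Pool.Agent.W558 Pool.Agent.W363.RS

namespace Pool.Agent.W978.WD

variable {k E : Type u} [Field k] [Field E] [Algebra k E]

/-- The first parameter is a prime element. -/
theorem prime_x {O : Subalgebra k E} {x y : E} (hP : Pt2 O) (h : Par O x y) {s t : E}
    (hs : s ∈ O) (ht : t ∈ O) {c : E} (hc : c ∈ O) (hst : s * t = x * c) :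
    (∃ a ∈ O, s = x * a) ∨ ∃ a ∈ O, t = x * a := by
  obtain ⟨A, hA, hPt⟩ := hP
  have hO : Ad O := hPt.loc
  rcases dich hA hPt.le hPt.frac hO h s hs with ⟨a, ha, h1⟩ | ⟨n, ε, a, hε, hε1, ha, h1⟩
  · exact Or.inl ⟨a, ha, by rw [h1]; ring⟩
  rcases dich hA hPt.le hPt.frac hO h t ht with ⟨b, hb, h2⟩ | ⟨m, ε', b, hε', hε1', hb, h2⟩
  · exact Or.inr ⟨b, hb, by rw [h2]; ring⟩
  exfalso
  have hx : x ∈ O := h.pu.1
  have hy : y ∈ O := h.pv.1
  have key : ∀ N : ℕ, ∀ d ∈ O, y ^ N * (ε * ε') = x * d → False := by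
    intro N
    induction N with
    | zero =>
      intro d hd h3
      rw [pow_zero, one_mul] at h3
      have h4 : ¬ NU O (ε * ε') := not_NU_mul hε hε' hε1 hε1'
      apply h4
      rw [h3]
      exact h.pu.mul_right hd
    | succ N ih =>
      intro d hd h3
      obtain ⟨e, he, h4⟩ := h.reg d hd (y ^ N * (ε * ε'))
        (O.mul_mem (O.pow_mem hy N) (O.mul_mem hε hε')) (by rw [← h3]; ring)
      exact ih e he h4
  refine key (n + m) (c - ε * y ^ n * b - a * (ε' * y ^ m) - a * x * b) ?_ ?_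
  · refine O.sub_mem (O.sub_mem (O.sub_mem hc ?_) ?_) ?_
    · exact O.mul_mem (O.mul_mem hε (O.pow_mem hy n)) hb
    · exact O.mul_mem ha (O.mul_mem hε' (O.pow_mem hy m))
    · exact O.mul_mem (O.mul_mem ha hx) hb
  · rw [h1, h2] at hst
    rw [pow_add]
    linear_combination hst

/-- Logarithmic derivations and quadratic transforms. -/
theorem th_up {O O' : Subalgebra k E} {x : E} (hQ : Quad O x O') {θ : Derivation k E E}
    (hθ : θ ∈ Th O (uo O x)) : x • θ ∈ Th O' (uo O' x) := by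
  obtain ⟨h1, h2⟩ := hθ
  have hx0 := hQ.e0
  obtain ⟨w0, hw0, h3⟩ := h2 x ⟨1, O.one_mem, one_ne_zero, by rw [inv_one]; exact O.one_mem,
    (one_mul x).symm⟩
  have hxO' : x ∈ O' := hQ.le hQ.eO.1
  have hBle : BB O x ≤ O' := by
    unfold BB
    rw [Algebra.adjoin_le_iff]
    rintro z (hz | ⟨y, hy, rfl⟩)
    · exact hQ.le hz
    · exact hQ.div y hy
  have hB : ∀ b ∈ BB O x, (x • θ) b ∈ O' := by
    intro b hb
    unfold BB at hb
    induction hb using Algebra.adjoin_induction with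
    | mem z hz =>
      rcases hz with hz | ⟨y, hy, rfl⟩
      · rw [Derivation.smul_apply, smul_eq_mul]
        exact O'.mul_mem hxO' (hQ.le (h1 z hz))
      · have e : (x • θ) (y * x⁻¹) = θ y - w0 * y := by
          rw [Derivation.smul_apply, Derivation.leibniz, Derivation.leibniz_inv, h3]
          simp only [smul_eq_mul]
          field_simp
          ring
        rw [e]
        exact O'.sub_mem (hQ.le (h1 y hy.1)) (O'.mul_mem (hQ.le hw0) (hQ.le hy.1))
    | algebraMap r =>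
      rw [Derivation.map_algebraMap]
      exact O'.zero_mem
    | add a b ha hb iha ihb =>
      rw [map_add]
      exact O'.add_mem iha ihb
    | mul a b ha hb iha ihb =>
      rw [Derivation.leibniz, smul_eq_mul, smul_eq_mul]
      exact O'.add_mem (O'.mul_mem (hBle ha) ihb) (O'.mul_mem (hBle hb) iha)
  have hO' : ∀ a ∈ O', (x • θ) a ∈ O' := by
    intro a ha
    obtain ⟨b, hb, c, hc, hc0, hci, rfl⟩ := hQ.frac a ha
    rw [Derivation.leibniz, Derivation.leibniz_inv]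
    simp only [smul_eq_mul]
    refine O'.add_mem (O'.mul_mem (hBle hb) ?_) (O'.mul_mem hci (hB b hb))
    rw [neg_mul]
    exact O'.neg_mem (O'.mul_mem (O'.pow_mem hci 2) (hB c hc))
  refine ⟨hO', ?_⟩
  rintro z ⟨w', hw', hw0', hwi', rfl⟩
  refine ⟨w0 * x + (x • θ) w' * w'⁻¹, O'.add_mem (O'.mul_mem (hQ.le hw0) hxO')
    (O'.mul_mem (hO' w' hw') hwi'), ?_⟩
  have e1 : (x • θ) x = x * (w0 * x) := by
    rw [Derivation.smul_apply, h3, smul_eq_mul]
  rw [Derivation.leibniz, e1]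
  simp only [smul_eq_mul]
  field_simp

theorem th_up_n {O : ℕ → Subalgebra k E} {x : E} (hQ : ∀ n, Quad (O n) x (O (n + 1)))
    {θ : Derivation k E E} (hθ : θ ∈ Th (O 0) (uo (O 0) x)) (n : ℕ) :
    x ^ n • θ ∈ Th (O n) (uo (O n) x) := by
  induction n with
  | zero => rwa [pow_zero, one_smul]
  | succ n ih =>
    have h := th_up (hQ n) ih
    rwa [smul_smul, ← pow_succ'] at h

theorem ox_mem {O : Subalgebra k E} {x y z : E} (hx : x ∈ O) (hy : y ∈ O) {j : ℕ}
    (h : Ox O x y j z) : z ∈ O := by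
  obtain ⟨α, hα, β, hβ, rfl⟩ := h
  exact O.add_mem (O.mul_mem hα hx) (O.mul_mem hβ (O.pow_mem hy j))

theorem main : WD_lim.{u} := by
  intro k E _ _ _ _ _ O x y f m c hP hpar hQ hFC hD hm
  have hmono : Monotone O := monotone_nat_of_le_succ fun n => (hQ n).le
  have hx0 : x ≠ 0 := (hQ 0).e0
  have hxO : ∀ n, x ∈ O n := fun n => (hpar n).pu.1
  -- growth of the exponents
  have hmn : ∀ n : ℕ, m 0 + 2 * n ≤ m n := by
    intro n
    induction n with
    | zero => simp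
    | succ n ih =>
      have := hm n
      push_cast
      linarith
  -- the prime ideal
  let q : Ideal (O 0) :=
    { carrier := {z | ∀ l : ℕ, ∃ n, ∃ b ∈ O n, (z : E) = x ^ l * b}
      add_mem' := by
        intro z w hz hw l
        obtain ⟨n, b, hb, e1⟩ := hz l
        obtain ⟨n', b', hb', e2⟩ := hw l
        refine ⟨max n n', b + b', (O _).add_mem (hmono (le_max_left _ _) hb)
          (hmono (le_max_right _ _) hb'), ?_⟩
        rw [mul_add, ← e1, ← e2]
        rfl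
      zero_mem' := fun l => ⟨0, 0, (O 0).zero_mem, by rw [mul_zero]; rfl⟩
      smul_mem' := by
        intro w z hz l
        obtain ⟨n, b, hb, e1⟩ := hz l
        refine ⟨n, w * b, (O n).mul_mem (hmono (Nat.zero_le n) w.2) hb, ?_⟩
        change (w : E) * z = _
        rw [e1]
        ring }
  have hq : ∀ z : O 0, z ∈ q ↔ ∀ l : ℕ, ∃ n, ∃ b ∈ O n, (z : E) = x ^ l * b := fun z => Iff.rfl
  have hxq : (⟨x, hxO 0⟩ : O 0) ∉ q := by
    intro h
    obtain ⟨n, b, hb, e1⟩ := (hq _).mp h 2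
    refine (hpar n).pu.2 b hb ?_
    have e2 : x * (x * b) = x * 1 := by
      rw [mul_one]
      have : x = x ^ 2 * b := e1
      conv_rhs => rw [this]
      ring
    exact mul_left_cancel₀ hx0 e2
  have h1q : (1 : O 0) ∉ q := by
    intro h
    apply hxq
    have := q.mul_mem_left ⟨x, hxO 0⟩ h
    rwa [mul_one] at this
  -- order
  have hord : ∀ z : O 0, z ∉ q → ∃ L : ℕ, ∀ n, ∀ l, ∀ b ∈ O n, (z : E) = x ^ l * b → l ≤ L := by
    intro z hz
    rw [hq] at hz
    push Not at hz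
    obtain ⟨L, hL⟩ := hz
    refine ⟨L, fun n l b hb e => ?_⟩
    by_contra hlt
    push Not at hlt
    apply hL n (x ^ (l - L) * b) ((O n).mul_mem ((O n).pow_mem (hxO n) _) hb)
    rw [e, ← mul_assoc, ← pow_add]
    congr 2
    omega
  have hmax : ∀ z : O 0, z ∉ q → ∀ n, ∃ l, ∃ b ∈ O n, (z : E) = x ^ l * b ∧
      ¬ ∃ a ∈ O n, b = x * a := by
    intro z hz n
    obtain ⟨L, hL⟩ := hord z hz
    by_contra hcon
    push Not at hcon
    have key : ∀ l : ℕ, ∃ b ∈ O n, (z : E) = x ^ l * b := by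
      intro l
      induction l with
      | zero => exact ⟨z, hmono (Nat.zero_le n) z.2, by rw [pow_zero, one_mul]⟩
      | succ l ih =>
        obtain ⟨b, hb, e⟩ := ih
        obtain ⟨a, ha, e2⟩ := hcon l b hb e
        exact ⟨a, ha, by rw [e, e2, pow_succ]; ring⟩
    obtain ⟨b, hb, e⟩ := key (L + 1)
    have := hL n (L + 1) b hb e
    omega
  have hprime : q.IsPrime := by
    constructor
    · intro h
      exact h1q (by rw [h]; exact Submodule.mem_top)
    · intro z w hzw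
      by_contra hcon
      push Not at hcon
      obtain ⟨hz, hw⟩ := hcon
      obtain ⟨L, hL⟩ := hord z hz
      obtain ⟨L', hL'⟩ := hord w hw
      obtain ⟨n, b, hb, e⟩ := (hq _).mp hzw (L + L' + 1)
      obtain ⟨l, z', hz', e1, e2⟩ := hmax z hz n
      obtain ⟨l', w', hw', e3, e4⟩ := hmax w hw n
      have h1 := hL n l z' hz' e1
      have h2 := hL' n l' w' hw' e3
      have e' : (z : E) * w = x ^ (L + L' + 1) * b := e
      have e5 : z' * w' = x * (x ^ (L + L' - (l + l')) * b) := by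
        have h3 : x ^ (l + l') ≠ 0 := pow_ne_zero _ hx0
        apply mul_left_cancel₀ h3
        have e6 : L + L' + 1 = (l + l') + (1 + (L + L' - (l + l'))) := by omega
        rw [e1, e3, e6, pow_add x (l + l'), pow_add x 1, pow_one] at e'
        rw [pow_add]
        rw [pow_add] at e'
        linear_combination e'
      rcases prime_x (hP n) (hpar n) hz' hw'
        ((O n).mul_mem ((O n).pow_mem (hxO n) _) hb) e5 with h | h
      · exact e2 h
      · exact e4 h
  -- contradiction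
  obtain ⟨θ, hθ, hθ2⟩ := hFC q hprime ⟨⟨x, hxO 0⟩, (hpar 0).pu, hxq⟩ (by
    rintro z ⟨w, hw, hw0, hwi, e⟩ hz
    apply hxq
    have h1 := q.mul_mem_left ⟨w⁻¹, hwi⟩ hz
    have e1 : (⟨w⁻¹, hwi⟩ : O 0) * z = ⟨x, hxO 0⟩ := by
      apply Subtype.ext
      change w⁻¹ * (z : E) = x
      rw [e, inv_mul_cancel_left₀ hw0]
    rwa [e1] at h1)
  -- `g`
  have hg : ∀ n : ℕ, ∃ b ∈ O n, θ f * x ^ (-m 0) = x ^ n * b := by
    intro n
    have h1 := ox_mem (hxO n) (hpar n).pv.1 ((hD n).1 _ (th_up_n hQ hθ n))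
    rw [Derivation.smul_apply, smul_eq_mul] at h1
    obtain ⟨j, hj⟩ : ∃ j : ℕ, m n = m 0 + 2 * n + j :=
      ⟨(m n - (m 0 + 2 * n)).toNat, by have := hmn n; omega⟩
    refine ⟨x ^ n * θ f * x ^ (-m n) * x ^ j, (O n).mul_mem h1 ((O n).pow_mem (hxO n) j), ?_⟩
    have e1 : (x : E) ^ n * (x ^ n * θ f * x ^ (-m n) * x ^ j) =
        θ f * (x ^ (n : ℤ) * x ^ (n : ℤ) * x ^ (-m n) * x ^ (j : ℤ)) := by
      rw [zpow_natCast, zpow_natCast]
      ring
    rw [e1, ← zpow_add₀ hx0, ← zpow_add₀ hx0, ← zpow_add₀ hx0]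
    congr 2
    rw [hj]
    ring
  obtain ⟨g, hg0, eg⟩ := hg 0
  rw [pow_zero, one_mul] at eg
  have hgq : (⟨g, hg0⟩ : O 0) ∈ q := by
    rw [hq]
    intro l
    obtain ⟨b, hb, e⟩ := hg l
    exact ⟨l, b, hb, by rw [← e, eg]⟩
  obtain ⟨N, hN⟩ : ∃ N : ℕ, 0 ≤ (N : ℤ) + m 0 := ⟨(-m 0).toNat, by omega⟩
  obtain ⟨M, hM⟩ : ∃ M : ℕ, (M : ℤ) = N + m 0 := ⟨((N : ℤ) + m 0).toNat, by omega⟩
  have hxN : (⟨x ^ N, (O 0).pow_mem (hxO 0) N⟩ : O 0) ∉ q := by
    intro h
    have e : (⟨x ^ N, (O 0).pow_mem (hxO 0) N⟩ : O 0) = (⟨x, hxO 0⟩ : O 0) ^ N :=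
      Subtype.ext rfl
    rw [e] at h
    exact hxq (hprime.mem_of_pow_mem N h)
  have e2 : x ^ N * θ f = x ^ M * g := by
    rw [← eg, ← zpow_natCast x M, hM, ← zpow_natCast x N, zpow_add₀ hx0, zpow_neg]
    field_simp
  have h3 : x ^ N * θ f ∈ O 0 := by
    rw [e2]
    exact (O 0).mul_mem ((O 0).pow_mem (hxO 0) M) hg0
  refine hθ2 ⟨x ^ N, (O 0).pow_mem (hxO 0) N⟩ hxN h3 ?_
  have h4 := q.mul_mem_left ⟨x ^ M, (O 0).pow_mem (hxO 0) M⟩ hgq
  have e3 : (⟨x ^ M, (O 0).pow_mem (hxO 0) M⟩ : O 0) * ⟨g, hg0⟩ = ⟨x ^ N * θ f, h3⟩ := by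
    apply Subtype.ext
    change x ^ M * g = x ^ N * θ f
    rw [e2]
  rwa [e3] at h4

end Pool.Agent.W978.WD
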